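import Pool.Agent.helper83.TA.Defs

/-!
# The unitary group of `Pool.Agent.helper83.TA.Defs` is an affine algebraic group
-/

set_option autoImplicit false

namespace Pool.Agent.helper83.TA

namespace Rep

variable {R R' : Type} [CommRing R] [CommRing R']

/-- the six coordinates -/
def coord (x : S R) : Fin 6 → R := ![x.a0, x.a1, x.a2, x.b0, x.b1, x.b2]

omit [CommRing R] in
theorem coord_ext {x y : S R} (h : ∀ c, coord x c = coord y c) : x = y := by
  ext
  · exact h 0
  · exact h 1
  · exact h 2
  · exact h 3
  · exact h 4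
  · exact h 5

theorem coord_map (f : R →+* R') (x : S R) (c : Fin 6) : coord (S.map f x) c = f (coord x c) := by
  fin_cases c <;> rfl

theorem map_eq_zero_of (f : R →+* R') (x : S R) (h : ∀ c, f (coord x c) = 0) :
    S.map f x = 0 := by
  apply coord_ext
  intro c
  rw [coord_map, h c]
  fin_cases c <;> rfl

theorem map_coord_of_zero (f : R →+* R') (x : S R) (h : S.map f x = 0) (c : Fin 6) :
    f (coord x c) = 0 := by
  rw [← coord_map, h]
  fin_cases c <;> rfl

/-- the polynomial ring in the coordinates of a matrix -/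
abbrev P (F : Type) [Field F] : Type := MvPolynomial (I × I × Fin 6) F

variable (F : Type) [Field F] (t : F)

/-- the universal matrix -/
noncomputable def Xu : Matrix I I (S (P F)) := fun i j =>
  ⟨MvPolynomial.X (i, j, 0), MvPolynomial.X (i, j, 1), MvPolynomial.X (i, j, 2),
    MvPolynomial.X (i, j, 3), MvPolynomial.X (i, j, 4), MvPolynomial.X (i, j, 5)⟩

theorem coord_Xu (i j : I) (c : Fin 6) : coord (Xu F i j) c = MvPolynomial.X (i, j, c) := by
  fin_cases c <;> rfl

/-- first equations -/
noncomputable def E1 : S (P F) := (Xu F).det - 1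

/-- second equations -/
noncomputable def E2 : Matrix I I (S (P F)) :=
  (Xu F).map S.sg * B (algebraMap F (P F) t) - B (algebraMap F (P F) t) * Xu F

/-- third equations -/
noncomputable def E3 : Matrix I I (S (P F)) :=
  ((Xu F).map S.rh).transpose * Q (algebraMap F (P F) t) * Xu F - Q (algebraMap F (P F) t)

/-- the ideal of the equations -/
noncomputable def J : Ideal (P F) :=
  Ideal.span ({x | ∃ c, x = coord (E1 F) c} ∪ {x | ∃ i j c, x = coord (E2 F t i j) c} ∪
    {x | ∃ i j c, x = coord (E3 F t i j) c})

/-- a homomorphism which kills the equations gives a point -/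
theorem point_of {R : Type} [CommRing R] (f : P F →+* R) (s : R)
    (hs : f (algebraMap F (P F) t) = s) (hf : ∀ x ∈ J F t, f x = 0) :
    ((Xu F).map (S.map f)).det = 1 ∧
    ((Xu F).map (S.map f)).map S.sg * B s = B s * (Xu F).map (S.map f) ∧
    (((Xu F).map (S.map f)).map S.rh).transpose * Q s * (Xu F).map (S.map f) = Q s := by
  have h1 : S.map f (E1 F) = 0 := map_eq_zero_of _ _ fun c =>
    hf _ (Ideal.subset_span (Or.inl (Or.inl ⟨c, rfl⟩)))
  have h2 : (E2 F t).map (S.map f) = 0 := by
    ext1 i j
    exact map_eq_zero_of _ _ fun c => hf _ (Ideal.subset_span (Or.inl (Or.inr ⟨i, j, c, rfl⟩)))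
  have h3 : (E3 F t).map (S.map f) = 0 := by
    ext1 i j
    exact map_eq_zero_of _ _ fun c => hf _ (Ideal.subset_span (Or.inr ⟨i, j, c, rfl⟩))
  have e1 : ((Xu F).map (S.map f)).map S.sg = ((Xu F).map S.sg).map (S.map f) := by
    ext1 p q
    simp [S.map_sg]
  have e2 : ((Xu F).map (S.map f)).map S.rh = ((Xu F).map S.rh).map (S.map f) := by
    ext1 p q
    simp [S.map_rh]
  refine ⟨?_, ?_, ?_⟩
  · have := RingHom.map_det (S.map f) (Xu F)
    rw [RingHom.mapMatrix_apply] at this
    rw [← this]
    rw [E1, map_sub, map_one, sub_eq_zero] at h1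
    exact h1
  · rw [E2, Matrix.map_sub _ (map_sub _), sub_eq_zero, Matrix.map_mul, Matrix.map_mul, B_map,
      hs] at h2
    rw [e1, h2]
  · rw [E3, Matrix.map_sub _ (map_sub _), sub_eq_zero, Matrix.map_mul, Matrix.map_mul, Q_map,
      hs, Matrix.transpose_map] at h3
    rw [e2, h3]

/-- a point kills the equations -/
theorem kill_of {R : Type} [CommRing R] (f : P F →+* R) (s : R)
    (hs : f (algebraMap F (P F) t) = s)
    (hd : ((Xu F).map (S.map f)).det = 1)
    (hb : ((Xu F).map (S.map f)).map S.sg * B s = B s * (Xu F).map (S.map f))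
    (hq : (((Xu F).map (S.map f)).map S.rh).transpose * Q s * (Xu F).map (S.map f) = Q s) :
    ∀ x ∈ J F t, f x = 0 := by
  have e1 : ((Xu F).map (S.map f)).map S.sg = ((Xu F).map S.sg).map (S.map f) := by
    ext1 p q
    simp [S.map_sg]
  have e2 : ((Xu F).map (S.map f)).map S.rh = ((Xu F).map S.rh).map (S.map f) := by
    ext1 p q
    simp [S.map_rh]
  have h1 : S.map f (E1 F) = 0 := by
    have := RingHom.map_det (S.map f) (Xu F)
    rw [RingHom.mapMatrix_apply] at this
    rw [E1, map_sub, map_one, sub_eq_zero, this, hd]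
  have h2 : (E2 F t).map (S.map f) = 0 := by
    rw [E2, Matrix.map_sub _ (map_sub _), sub_eq_zero, Matrix.map_mul, Matrix.map_mul, B_map,
      hs, ← e1, hb]
  have h3 : (E3 F t).map (S.map f) = 0 := by
    rw [E3, Matrix.map_sub _ (map_sub _), sub_eq_zero, Matrix.map_mul, Matrix.map_mul, Q_map,
      hs, Matrix.transpose_map, ← e2, hq]
  intro x hx
  have hle : J F t ≤ RingHom.ker f := by
    rw [J, Ideal.span_le]
    rintro y ((⟨c, rfl⟩ | ⟨i, j, c, rfl⟩) | ⟨i, j, c, rfl⟩)
    · exact map_coord_of_zero _ _ h1 c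
    · exact map_coord_of_zero _ _ (congrFun (congrFun h2 i) j) c
    · exact map_coord_of_zero _ _ (congrFun (congrFun h3 i) j) c
  exact hle hx

/-- the coordinate ring -/
abbrev H : Type := P F ⧸ J F t

/-- the universal point -/
noncomputable def u : SU (H F t) (algebraMap F (H F t) t) :=
  ⟨⟨(Xu F).map (S.map (Ideal.Quotient.mk (J F t))),
    (point_of F t (Ideal.Quotient.mk (J F t)) _ rfl fun _ hx =>
      Ideal.Quotient.eq_zero_iff_mem.mpr hx).1⟩,
    (point_of F t (Ideal.Quotient.mk (J F t)) _ rfl fun _ hx =>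
      Ideal.Quotient.eq_zero_iff_mem.mpr hx).2⟩

/-- the matrix of a point -/
def toMat {F : Type} [Field F] {t : F} {R : Type} [CommRing R] [Algebra F R]
    (g : (unitary F t).obj R) : Matrix I I (S R) :=
  ((g : SU R (algebraMap F R t)).1 : Matrix I I (S R))

theorem map_u_apply {R : Type} [CommRing R] [Algebra F R] (f : H F t →ₐ[F] R) (i j : I)
    (c : Fin 6) :
    coord (toMat ((unitary F t).map f (u F t)) i j) c =
      f (Ideal.Quotient.mk (J F t) (MvPolynomial.X (i, j, c))) := by
  have h : toMat ((unitary F t).map f (u F t)) i j =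
      S.map (f : H F t →+* R) (S.map (Ideal.Quotient.mk (J F t)) (Xu F i j)) := rfl
  rw [h, coord_map, coord_map, coord_Xu]
  rfl

end Rep

open Pool.Agent.helper83.TA.Rep GroupFunctor in
/-- (module REP) -/
theorem unitary_isAffineAlgebraic (F : Type) [Field F] (t : F) :
    (unitary F t).IsAffineAlgebraic := by
  refine ⟨H F t, inferInstance, inferInstance, u F t, ?_, ?_⟩
  · exact Algebra.FiniteType.of_surjective (Ideal.Quotient.mkₐ F (J F t))
      (Ideal.Quotient.mkₐ_surjective F (J F t))
  · intro R _ _
    constructor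
    · intro f g hfg
      apply Ideal.Quotient.algHom_ext
      apply MvPolynomial.algHom_ext
      rintro ⟨i, j, c⟩
      have h1 := map_u_apply F t f i j c
      have h2 := map_u_apply F t g i j c
      have h3 : (unitary F t).map f (u F t) = (unitary F t).map g (u F t) := hfg
      rw [h3, h2] at h1
      exact h1.symm
    · intro g
      obtain ⟨⟨g, hd⟩, hb, hq⟩ := g
      let φ : P F →ₐ[F] R := MvPolynomial.aeval fun p => coord (g p.1 p.2.1) p.2.2
      have hX : (Xu F).map (S.map (φ : P F →+* R)) = g := by
        ext1 i j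
        apply coord_ext
        intro c
        rw [Matrix.map_apply, coord_map, coord_Xu]
        exact MvPolynomial.aeval_X _ _
      have hk : ∀ x ∈ J F t, φ x = 0 := by
        apply kill_of F t (φ : P F →+* R) (algebraMap F R t) (φ.commutes t)
        · rw [hX]; exact hd
        · rw [hX]; exact hb
        · rw [hX]; exact hq
      refine ⟨Ideal.Quotient.liftₐ (J F t) φ hk, ?_⟩
      apply Subtype.ext
      apply Subtype.ext
      ext1 i j
      apply coord_ext
      intro c
      refine (map_u_apply F t _ i j c).trans ?_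
      exact MvPolynomial.aeval_X _ _

end Pool.Agent.helper83.TA
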